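import Mathlib

set_option autoImplicit false

namespace Pool.Agent.H25.SN

/-- Admissible tuple: non-zero, pairwise coprime integers with sum zero. -/
def Admissible {n : ℕ} (x : Fin n → ℤ) : Prop :=
  (∀ i, x i ≠ 0) ∧ (∀ i j, i ≠ j → Int.gcd (x i) (x j) = 1) ∧ ∑ i, x i = 0

/-- The radical: product of the distinct primes dividing the integer. -/
def rad (m : ℤ) : ℕ := m.natAbs.primeFactors.prod id

/-- There is an admissible `n`-tuple with an entry larger than `H` and larger than `rad^M`. -/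
def Good (n : ℕ) (M H : ℝ) : Prop :=
  ∃ x : Fin n → ℤ, Admissible x ∧ ∃ j, H < |((x j : ℤ) : ℝ)| ∧
    ((rad (∏ i, x i) : ℕ) : ℝ) ^ M < |((x j : ℤ) : ℝ)|

lemma good_add_two {n : ℕ} {M H : ℝ} (h : Good n M H) : Good (n + 2) M H := by
  obtain ⟨x, ⟨h0, h1, h2⟩, j, h3, h4⟩ := h
  refine ⟨Fin.cons 1 (Fin.cons (-1) x : Fin (n + 1) → ℤ), ⟨?_, ?_, ?_⟩, j.succ.succ, ?_, ?_⟩
  · intro i
    refine Fin.cases ?_ (fun i => ?_) i
    · simp
    · refine Fin.cases ?_ (fun i => ?_) i
      · simp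
      · simpa using h0 i
  · intro i k
    refine Fin.cases ?_ (fun i => ?_) i
    · intro _
      simp
    · refine Fin.cases ?_ (fun k => ?_) k
      · intro _
        simp
      · refine Fin.cases ?_ (fun i => ?_) i
        · intro _
          simp
        · refine Fin.cases ?_ (fun k => ?_) k
          · intro _
            simp
          · intro hik
            simp only [Fin.cons_succ]
            exact h1 i k (fun h => hik (by rw [h]))
  · rw [Fin.sum_univ_succ, Fin.sum_univ_succ]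
    simp [h2]
  · simpa using h3
  · have : rad (∏ i, (Fin.cons 1 (Fin.cons (-1) x : Fin (n + 1) → ℤ) : Fin (n + 1 + 1) → ℤ) i)
        = rad (∏ i, x i) := by
      rw [Fin.prod_univ_succ, Fin.prod_univ_succ]
      simp [rad]
    rw [this]
    simpa using h4

lemma good_of_even {n m : ℕ} {M H : ℝ} (h : Good m M H) (hmn : m ≤ n) (he : Even (n - m)) :
    Good n M H := by
  obtain ⟨r, hr⟩ := he
  have hn : n = m + 2 * r := by omega
  subst hn
  clear hmn hr
  induction r with
  | zero => simpa using h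
  | succ r ih => exact good_add_two ih

/-- If `N ∣ K ^ t` then `rad N ≤ K`. -/
lemma rad_le {N : ℤ} {K : ℕ} (hK : 0 < K) (t : ℕ) (h : N.natAbs ∣ K ^ t) : rad N ≤ K := by
  have h1 : rad N ∣ K := by
    unfold rad
    have h2 : N.natAbs.primeFactors ⊆ K.primeFactors := by
      intro p hp
      rw [Nat.mem_primeFactors] at hp ⊢
      refine ⟨hp.1, hp.1.dvd_of_dvd_pow (hp.2.1.trans h), hK.ne'⟩
    exact (Finset.prod_dvd_prod_of_subset _ _ id h2).trans (Nat.prod_primeFactors_dvd K)
  exact Nat.le_of_dvd hK h1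

lemma one_le_rad (N : ℤ) : 1 ≤ rad N := by
  unfold rad
  apply Nat.one_le_iff_ne_zero.mpr
  rw [Finset.prod_ne_zero_iff]
  intro p hp
  exact (Nat.prime_of_mem_primeFactors hp).ne_zero

/-- Asymptotic comparison. -/
lemma exists_good (n : ℕ) (D E : ℕ) (C : ℝ) (hE : 0 < E) (M : ℝ)
    (hM : M < (D : ℝ) / E)
    (t : ℕ → ℝ) (ht : Filter.Tendsto t Filter.atTop Filter.atTop)
    (x : ℕ → Fin n → ℤ) (j : Fin n) (hx : ∀ k, Admissible (x k))
    (hD : ∀ k, t k ^ D ≤ |((x k j : ℤ) : ℝ)|) (hDpos : 0 < D)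
    (hrad : ∀ k, ((rad (∏ i, x k i) : ℕ) : ℝ) ≤ C * t k ^ E) (H : ℝ) : Good n M H := by
  have hC : ∀ k, 1 ≤ C * t k ^ E := by
    intro k
    refine le_trans ?_ (hrad k)
    exact_mod_cast one_le_rad _
  -- t k ^ D → ∞
  have hT1 : Filter.Tendsto (fun k => t k ^ D) Filter.atTop Filter.atTop :=
    (Filter.tendsto_pow_atTop hDpos.ne').comp ht
  have hev1 : ∀ᶠ k in Filter.atTop, max H 1 < t k ^ D := hT1.eventually_gt_atTop _
  have hev0 : ∀ᶠ k in Filter.atTop, 1 < t k := ht.eventually_gt_atTop _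
  rcases le_or_gt M 0 with hM0 | hM0
  · obtain ⟨k, hk⟩ := hev1.exists
    refine ⟨x k, hx k, j, ?_, ?_⟩
    · exact ((le_max_left _ _).trans_lt hk).trans_le (hD k)
    · have h1 : ((rad (∏ i, x k i) : ℕ) : ℝ) ^ M ≤ 1 :=
        Real.rpow_le_one_of_one_le_of_nonpos (by exact_mod_cast one_le_rad _) hM0
      exact h1.trans_lt (((le_max_right _ _).trans_lt hk).trans_le (hD k))
  · have hCpos : 0 < C := by
      obtain ⟨k, hk⟩ := hev0.exists
      have := hC k
      by_contra hneg
      push Not at hneg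
      have h2 : 0 ≤ t k ^ E := pow_nonneg (by linarith) _
      nlinarith [mul_nonneg (neg_nonneg.mpr hneg) h2]
    have hexp : 0 < (D : ℝ) - E * M := by
      have hE' : (0 : ℝ) < E := by exact_mod_cast hE
      have := (lt_div_iff₀ hE').mp hM
      linarith
    have hT2 : Filter.Tendsto (fun k => t k ^ ((D : ℝ) - E * M)) Filter.atTop Filter.atTop :=
      (tendsto_rpow_atTop hexp).comp ht
    have hev2 : ∀ᶠ k in Filter.atTop, C ^ M < t k ^ ((D : ℝ) - E * M) :=
      hT2.eventually_gt_atTop _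
    obtain ⟨k, ⟨hk1, hk2⟩, hk0⟩ := ((hev1.and hev2).and hev0).exists
    have htpos : 0 < t k := by linarith
    refine ⟨x k, hx k, j, ?_, ?_⟩
    · exact ((le_max_left _ _).trans_lt hk1).trans_le (hD k)
    · calc ((rad (∏ i, x k i) : ℕ) : ℝ) ^ M ≤ (C * t k ^ E) ^ M :=
            Real.rpow_le_rpow (Nat.cast_nonneg _) (hrad k) hM0.le
        _ = C ^ M * t k ^ ((E : ℝ) * M) := by
            rw [Real.mul_rpow hCpos.le (pow_nonneg htpos.le _), ← Real.rpow_natCast,
              ← Real.rpow_mul htpos.le]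
        _ < t k ^ ((D : ℝ) - E * M) * t k ^ ((E : ℝ) * M) :=
            mul_lt_mul_of_pos_right hk2 (Real.rpow_pos_of_pos htpos _)
        _ = t k ^ D := by
            rw [← Real.rpow_add htpos, ← Real.rpow_natCast]
            congr 1
            ring
        _ ≤ |((x k j : ℤ) : ℝ)| := hD k

end Pool.Agent.H25.SN
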