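import Pool.Agent.H25.SN.Core

set_option autoImplicit false

namespace Pool.Agent.H25.SN

lemma cop {u v c α β : ℤ} (h : α * u + β * v = c) (hc : IsCoprime u c) : IsCoprime u v := by
  have h1 : IsCoprime u (β * v) := by
    have : β * v = c + u * (-α) := by linarith
    rw [this]
    exact IsCoprime.add_mul_left_right hc (-α)
  exact IsCoprime.of_mul_right_right h1

lemma cop_of_dvd {u R c : ℤ} (h : IsCoprime u R) (t : ℕ) (hc : c ∣ R ^ t) : IsCoprime u c :=
  IsCoprime.of_isCoprime_of_dvd_right h.pow_right hc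

/-- coprimality to `R` only depends on the residue class modulo `R`. -/
lemma cop_modEq {u u0 R : ℤ} (h : u ≡ u0 [ZMOD R]) (h0 : IsCoprime u0 R) : IsCoprime u R := by
  obtain ⟨c, hc⟩ := h.symm.dvd
  have : u = u0 + R * c := by linarith
  rw [this]
  exact IsCoprime.add_mul_left_left h0 c

namespace Seven

/-- `B = 2^28 * 3^4 * 37 - 1`. -/
def B : ℤ := 804501061631

def R : ℤ := 2730 * 804501061631

/-- There is a positive exponent `e` with `29 ^ e = 1` modulo `R`. -/
lemma exists_exp : ∃ e : ℕ, 0 < e ∧ ∀ k : ℕ, (29 : ℤ) ^ (1 + k * e) ≡ 29 [ZMOD R] := by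
  obtain ⟨N, hN⟩ : ∃ N : ℕ, (N : ℤ) = R := ⟨2730 * 804501061631, by unfold R; norm_num⟩
  have hc : Nat.Coprime 29 N := by
    have : N = 2730 * 804501061631 := by
      have h : (N : ℤ) = ((2730 * 804501061631 : ℕ) : ℤ) := by
        rw [hN]; unfold R; norm_num
      exact_mod_cast h
    rw [this]
    norm_num
  have hNpos : 0 < N := by
    rcases Nat.eq_zero_or_pos N with h | h
    · rw [h] at hN
      unfold R at hN
      norm_num at hN
    · exact h
  refine ⟨Nat.totient N, Nat.totient_pos.mpr hNpos, fun k => ?_⟩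
  have h1 := Nat.ModEq.pow_totient hc
  have h2 := h1.pow k
  have h3 : 29 * (29 ^ Nat.totient N) ^ k ≡ 29 * 1 ^ k [MOD N] := Nat.ModEq.mul_left 29 h2
  have h4 : 29 ^ (1 + k * Nat.totient N) ≡ 29 [MOD N] := by
    rw [pow_add, pow_one, mul_comm k, pow_mul]
    simpa using h3
  have h5 := (Int.natCast_modEq_iff).mpr h4
  rw [hN] at h5
  push_cast at h5
  exact h5

def u3 (s : ℤ) : ℤ := 7 * (s - 24) ^ 2 + 5952
def u4 (s : ℤ) : ℤ := (s - 24) ^ 2 - 4416

section

variable {s : ℤ} (hs : s ≡ 29 [ZMOD R])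

include hs

lemma c1 : IsCoprime s R := by
  refine cop_modEq hs ?_
  unfold R
  norm_num

lemma c2 : IsCoprime (s - 48) R := by
  refine cop_modEq (hs.sub_right 48) ?_
  unfold R
  norm_num

lemma c3 : IsCoprime (u3 s) R := by
  have h : u3 s ≡ 7 * (29 - 24) ^ 2 + 5952 [ZMOD R] :=
    (((hs.sub_right 24).pow 2).mul_left 7).add_right 5952
  refine cop_modEq h ?_
  unfold R
  norm_num

lemma c4 : IsCoprime (u4 s) R := by
  have h : u4 s ≡ (29 - 24) ^ 2 - 4416 [ZMOD R] :=
    ((hs.sub_right 24).pow 2).sub_right 4416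
  refine cop_modEq h ?_
  unfold R
  norm_num

omit hs in
lemma copR {u c : ℤ} (h : IsCoprime u R) (t : ℕ) (hc : c ∣ 2730 ^ t) : IsCoprime u c := by
  have h1 : (2730 : ℤ) ∣ R := by unfold R; norm_num
  exact IsCoprime.of_isCoprime_of_dvd_right h.pow_right (hc.trans (pow_dvd_pow_of_dvd h1 t))

lemma c12 : IsCoprime s (s - 48) :=
  cop (α := 1) (β := -1) (c := 48) (by ring) (copR (c1 hs) 4 (by norm_num))

lemma c13 : IsCoprime s (u3 s) :=
  cop (α := -7 * (s - 48)) (β := 1) (c := 9984) (by unfold u3; ring)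
    (copR (c1 hs) 8 (by norm_num))

lemma c23 : IsCoprime (s - 48) (u3 s) :=
  cop (α := -7 * s) (β := 1) (c := 9984) (by unfold u3; ring)
    (copR (c2 hs) 8 (by norm_num))

lemma c14 : IsCoprime s (u4 s) :=
  cop (α := (s - 48)) (β := -1) (c := 3840) (by unfold u4; ring)
    (copR (c1 hs) 8 (by norm_num))

lemma c24 : IsCoprime (s - 48) (u4 s) :=
  cop (α := s) (β := -1) (c := 3840) (by unfold u4; ring)
    (copR (c2 hs) 8 (by norm_num))

lemma c34 : IsCoprime (u3 s) (u4 s) :=
  cop (α := 1) (β := -7) (c := 36864) (by unfold u3 u4; ring)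
    (copR (c3 hs) 12 (by norm_num))

omit hs in
lemma sevenR : (7 : ℤ) ∣ R := by unfold R; norm_num

omit hs in
lemma BR : B ∣ R := by unfold B R; norm_num

/-- The six numbers. -/
def x (s : ℤ) : Fin 6 → ℤ :=
  ![s ^ 7, -(s - 48) ^ 7, -(u3 s) ^ 3, 7 * (u4 s) ^ 3, 1, B]

lemma pair : ∀ i j : Fin 6, i < j → IsCoprime (x s i) (x s j) := by
  have d1 : IsCoprime s 7 := IsCoprime.of_isCoprime_of_dvd_right (c1 hs) sevenR
  have d2 : IsCoprime (s - 48) 7 := IsCoprime.of_isCoprime_of_dvd_right (c2 hs) sevenR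
  have d3 : IsCoprime (u3 s) 7 := IsCoprime.of_isCoprime_of_dvd_right (c3 hs) sevenR
  have e1 : IsCoprime s B := IsCoprime.of_isCoprime_of_dvd_right (c1 hs) BR
  have e2 : IsCoprime (s - 48) B := IsCoprime.of_isCoprime_of_dvd_right (c2 hs) BR
  have e3 : IsCoprime (u3 s) B := IsCoprime.of_isCoprime_of_dvd_right (c3 hs) BR
  have e4 : IsCoprime (u4 s) B := IsCoprime.of_isCoprime_of_dvd_right (c4 hs) BR
  have e7 : IsCoprime (7 : ℤ) B := by unfold B; norm_num
  have f01 : IsCoprime (s ^ 7) (-(s - 48) ^ 7) := (IsCoprime.pow (c12 hs)).neg_right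
  have f02 : IsCoprime (s ^ 7) (-(u3 s) ^ 3) := (IsCoprime.pow (c13 hs)).neg_right
  have f03 : IsCoprime (s ^ 7) (7 * (u4 s) ^ 3) :=
    IsCoprime.mul_right d1.pow_left (IsCoprime.pow (c14 hs))
  have f05 : IsCoprime (s ^ 7) B := e1.pow_left
  have f12 : IsCoprime (-(s - 48) ^ 7) (-(u3 s) ^ 3) := (IsCoprime.pow (c23 hs)).neg_neg
  have f13 : IsCoprime (-(s - 48) ^ 7) (7 * (u4 s) ^ 3) :=
    (IsCoprime.mul_right d2.pow_left (IsCoprime.pow (c24 hs))).neg_left
  have f15 : IsCoprime (-(s - 48) ^ 7) B := e2.pow_left.neg_left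
  have f23 : IsCoprime (-(u3 s) ^ 3) (7 * (u4 s) ^ 3) :=
    (IsCoprime.mul_right d3.pow_left (IsCoprime.pow (c34 hs))).neg_left
  have f25 : IsCoprime (-(u3 s) ^ 3) B := e3.pow_left.neg_left
  have f35 : IsCoprime (7 * (u4 s) ^ 3) B := IsCoprime.mul_left e7 e4.pow_left
  intro i j hij
  fin_cases i <;> fin_cases j <;> first
    | exact absurd hij (by decide)
    | exact f01
    | exact f02
    | exact f03
    | exact f05
    | exact f12
    | exact f13
    | exact f15
    | exact f23
    | exact f25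
    | exact f35
    | exact isCoprime_one_right
    | exact isCoprime_one_left

omit hs in
lemma sum_zero (s : ℤ) : ∑ i, x s i = 0 := by
  simp only [x, Fin.sum_univ_succ, Fin.sum_univ_zero]
  simp [u3, u4, B]
  ring

lemma admissible : Admissible (x s) := by
  have hp := pair hs
  refine ⟨?_, ?_, sum_zero s⟩
  · intro i h0
    have key : ∀ j : Fin 6, i ≠ j → IsUnit (x s j) := by
      intro j hij
      rcases lt_or_gt_of_ne hij with h | h
      · have := hp i j h
        rw [h0] at this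
        exact isCoprime_zero_left.mp this
      · have := hp j i h
        rw [h0] at this
        exact isCoprime_zero_right.mp this
    have hB : ¬ IsUnit (x s 5) := by
      intro h
      have h1 := Int.isUnit_iff.mp h
      have h2 : x s 5 = 804501061631 := rfl
      rw [h2] at h1
      norm_num at h1
    have h5 : i = 5 := by
      by_contra hne
      exact hB (key 5 hne)
    subst h5
    have h2 : x s 5 = 804501061631 := rfl
    rw [h2] at h0
    norm_num at h0
  · intro i j hij
    rw [← Int.isCoprime_iff_gcd_eq_one]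
    rcases lt_or_gt_of_ne hij with h | h
    · exact hp i j h
    · exact (hp j i h).symm

end

end Seven

end Pool.Agent.H25.SN
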